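import Mathlib
import Pool.Agent.K6.H28.IP.Main

/-!
# Projective modules over group rings of torsion-free polycyclic-by-finite groups

Let `G` be the fundamental group of the Hantzsche-Wendt 3-manifold (the Promislow group), a torsion-free
group with an abelian normal subgroup `ℤ³` of index four, and let `k` be a principal ideal domain of
characteristic zero in which `2` is invertible, for example `ℚ` or `ℤ[1/2]`. There is a countably
generated projective `kG`-module `P ≠ 0` without nonzero finitely generated direct summands. So `P` is
not a direct sum of a free module and a left ideal: `kG` is noetherian, so that left ideals are finitely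
generated.

Idea of the proof. The abelianization of `G` is finite, of order `16`, hence the augmentation ideal `Δ`
of `kG` is idempotent. By Whitehead and Sakhajev there is a projective module `P ≠ 0` with `ΔP = P`:
it has generators `e_α`, one for each word `α` in the letters `1`, `2`, and the relations
`e_α = y₁ e_{1α} + y₂ e_{2α}`, where `y₁ = a - 1`, `y₂ = b - 1` and `a`, `b` are the generators of `G`.
On the other hand a finitely generated projective module `M` with `ΔM = M` is zero: let `e` be
an idempotent matrix with image `M` and coefficients in `Δ`. Three families of two-dimensional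
representations of `G`, induced from characters of the subgroups of index two, relate the traces of `e` in
the four characters of `G` of order at most two; all are zero. Then the trace of `e` is zero in a faithful
family of representations over a domain, and so `e = 0`.
-/

set_option autoImplicit false

namespace Pool.Agent.Results.MP_164b00_al.BigProjective

universe u

/-- `G` is polycyclic: there is a chain `1 = H 0 ≤ H 1 ≤ ⋯ ≤ H n = G` of subgroups such that `H i` is
normal in `H (i + 1)` and the quotient is cyclic. -/
def IsPolycyclic (G : Type u) [Group G] : Prop :=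
  ∃ (n : ℕ) (H : ℕ → Subgroup G), H 0 = ⊥ ∧ H n = ⊤ ∧ ∀ i < n, H i ≤ H (i + 1) ∧
    ∃ _ : ((H i).subgroupOf (H (i + 1))).Normal,
      IsCyclic (H (i + 1) ⧸ (H i).subgroupOf (H (i + 1)))

/-- `G` is polycyclic-by-finite: it has a polycyclic normal subgroup of finite index. -/
def IsPolycyclicByFinite (G : Type u) [Group G] : Prop :=
  ∃ N : Subgroup G, N.Normal ∧ N.FiniteIndex ∧ IsPolycyclic N

/-- The statement of Q1: for every principal ideal domain `k` and every torsion-free
polycyclic-by-finite group `G`, every projective left `kG`-module is isomorphic to `F ⊕ I` with a free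
module `F` and a left ideal `I`. -/
def Q1 : Prop :=
  ∀ (k : Type) [CommRing k] [IsDomain k] [IsPrincipalIdealRing k] (G : Type) [Group G],
    (∀ g : G, IsOfFinOrder g → g = 1) → IsPolycyclicByFinite G →
    ∀ (P : Type) [AddCommGroup P] [Module (MonoidAlgebra k G) P],
      Module.Projective (MonoidAlgebra k G) P →
      ∃ (F : Type) (_ : AddCommGroup F) (_ : Module (MonoidAlgebra k G) F)
        (I : Ideal (MonoidAlgebra k G)), Module.Free (MonoidAlgebra k G) F ∧
          Nonempty (P ≃ₗ[MonoidAlgebra k G] F × I)

/-- There is a torsion-free polycyclic-by-finite group `G` such that for every principal ideal domain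
`k` of characteristic zero in which `2` is invertible there is a countably generated projective left
`kG`-module `P ≠ 0` which has no nonzero finitely generated direct summand and is not isomorphic to
`F ⊕ I` for any free module `F` and any left ideal `I` of `kG`. In particular Q1 is false. -/
theorem result :
    (∃ (G : Type) (_ : Group G), (∀ g : G, IsOfFinOrder g → g = 1) ∧ IsPolycyclicByFinite G ∧
      ∀ (k : Type) [CommRing k] [IsDomain k] [IsPrincipalIdealRing k] [CharZero k],
        IsUnit (2 : k) →
        ∃ (P : Type) (_ : AddCommGroup P) (_ : Module (MonoidAlgebra k G) P),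
          Module.Projective (MonoidAlgebra k G) P ∧ Nontrivial P ∧
          (∃ x : ℕ → P, Submodule.span (MonoidAlgebra k G) (Set.range x) = ⊤) ∧
          (∀ (M M' : Type) [AddCommGroup M] [Module (MonoidAlgebra k G) M] [AddCommGroup M']
            [Module (MonoidAlgebra k G) M'], Module.Finite (MonoidAlgebra k G) M →
            (P ≃ₗ[MonoidAlgebra k G] M × M') → Subsingleton M) ∧
          ∀ (F : Type) [AddCommGroup F] [Module (MonoidAlgebra k G) F],
            Module.Free (MonoidAlgebra k G) F → ∀ I : Ideal (MonoidAlgebra k G),
            IsEmpty (P ≃ₗ[MonoidAlgebra k G] F × I)) ∧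
    ¬ Q1 := by
  have key : ∀ (k : Type) [CommRing k] [IsDomain k] [IsPrincipalIdealRing k] [CharZero k],
      IsUnit (2 : k) → ∃ (P : Type) (_ : AddCommGroup P)
        (_ : Module (MonoidAlgebra k Pool.Agent.Q151.Cov.Pr) P),
          Module.Projective (MonoidAlgebra k Pool.Agent.Q151.Cov.Pr) P ∧ Nontrivial P ∧
          (∃ x : ℕ → P, Submodule.span (MonoidAlgebra k Pool.Agent.Q151.Cov.Pr)
            (Set.range x) = ⊤) ∧
          (∀ (M M' : Type) [AddCommGroup M] [Module (MonoidAlgebra k Pool.Agent.Q151.Cov.Pr) M]
            [AddCommGroup M'] [Module (MonoidAlgebra k Pool.Agent.Q151.Cov.Pr) M'],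
            Module.Finite (MonoidAlgebra k Pool.Agent.Q151.Cov.Pr) M →
            (P ≃ₗ[MonoidAlgebra k Pool.Agent.Q151.Cov.Pr] M × M') → Subsingleton M) ∧
          ∀ (F : Type) [AddCommGroup F] [Module (MonoidAlgebra k Pool.Agent.Q151.Cov.Pr) F],
            Module.Free (MonoidAlgebra k Pool.Agent.Q151.Cov.Pr) F →
            ∀ I : Ideal (MonoidAlgebra k Pool.Agent.Q151.Cov.Pr),
            IsEmpty (P ≃ₗ[MonoidAlgebra k Pool.Agent.Q151.Cov.Pr] F × I) := by
    intro k _ _ _ _ h2
    obtain ⟨P, i1, i2, hP, hn, hc, h⟩ := Pool.Agent.K6.H28.IP.exists_module k h2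
    refine ⟨P, i1, i2, hP, hn, hc, ?_, ?_⟩
    · intro M M' _ _ _ _ hM e
      have hMP : Module.Projective (MonoidAlgebra k Pool.Agent.Q151.Cov.Pr) M :=
        Module.Projective.of_split (e.symm.toLinearMap ∘ₗ LinearMap.inl _ M M')
          (LinearMap.fst _ M M' ∘ₗ e.toLinearMap) (by ext x; simp)
      refine Pool.Agent.K6.H28.IP.noAug_zero k M fun f x => ?_
      have := h (f ∘ₗ LinearMap.fst _ M M' ∘ₗ e.toLinearMap) (e.symm (x, 0))
      simpa using this
    · intro F _ _ hF I
      exact ⟨fun e => Pool.Agent.K6.H28.IP.no_decomposition k P hP hn h hF I e⟩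
  refine ⟨⟨Pool.Agent.Q151.Cov.Pr, inferInstance, Pool.Agent.K6.H28.IP.torsionFree,
    Pool.Agent.K6.H28.IP.polycyclicByFinite, key⟩, ?_⟩
  intro hQ
  obtain ⟨P, i1, i2, hP, -, -, -, h⟩ := key ℚ (by norm_num)
  obtain ⟨F, j1, j2, I, hF, ⟨e⟩⟩ := hQ ℚ Pool.Agent.Q151.Cov.Pr
    Pool.Agent.K6.H28.IP.torsionFree Pool.Agent.K6.H28.IP.polycyclicByFinite P hP
  exact (h F hF I).false e

end Pool.Agent.Results.MP_164b00_al.BigProjective
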